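import Mathlib

namespace Pool.Agent.Results.MP_328b17_nt.Full

open Finset Polynomial

/-- congruence of rational functions: `A - B = U / V` with `P ∣ U` and `V` coprime to `P` -/
def qcong (P : ℚ[X]) (A B : RatFunc ℚ) : Prop :=
  ∃ U V : ℚ[X], P ∣ U ∧ IsCoprime V P ∧ V ≠ 0 ∧
    A - B = algebraMap ℚ[X] (RatFunc ℚ) U / algebraMap ℚ[X] (RatFunc ℚ) V

/-- the indeterminate -/
noncomputable def q : RatFunc ℚ := RatFunc.X

/-- the `q`-integer `[m] = (1 - q^m) / (1 - q)` -/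
noncomputable def qint (m : ℤ) : RatFunc ℚ := (1 - q ^ m) / (1 - q)

/-- the shifted factorial `(a; b)_k` -/
noncomputable def qpoch (a b : RatFunc ℚ) (k : ℕ) : RatFunc ℚ := ∏ i ∈ range k, (1 - a * b ^ i)

theorem q_eq : q = algebraMap ℚ[X] (RatFunc ℚ) X := RatFunc.algebraMap_X.symm

theorem q_ne : q ≠ 0 := RatFunc.X_ne_zero

theorem one_sub_ne (k : ℕ) (hk : k ≠ 0) : 1 - q ^ k ≠ 0 := by
  have : (1 : RatFunc ℚ) - q ^ k = algebraMap ℚ[X] (RatFunc ℚ) (1 - X ^ k) := by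
    rw [q_eq]; simp
  rw [this]
  refine RatFunc.algebraMap_ne_zero fun h => ?_
  have := congrArg (eval 0) h
  simp [hk] at this

theorem dvd_of_qcong {P : ℤ[X]} (hP : P.Monic) {A B : RatFunc ℚ}
    (h : qcong (P.map (Int.castRingHom ℚ)) A B) (N D : ℤ[X])
    (e : (A - B) * aeval q D = aeval q N) (z : ℤ) : P.eval z ∣ N.eval z := by
  obtain ⟨U, V, hU, hV, hV0, h⟩ := h
  have key : ∀ F : ℤ[X], aeval q F = algebraMap ℚ[X] (RatFunc ℚ) (F.map (Int.castRingHom ℚ)) := by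
    intro F
    induction F using Polynomial.induction_on' with
    | add a b ha hb => simp [ha, hb]
    | monomial n c => simp [q_eq, ← C_mul_X_pow_eq_monomial]
  have hV1 : algebraMap ℚ[X] (RatFunc ℚ) V ≠ 0 := RatFunc.algebraMap_ne_zero hV0
  rw [h, key, key, div_mul_eq_mul_div, div_eq_iff hV1, ← map_mul, ← map_mul] at e
  have e2 := RatFunc.algebraMap_injective ℚ e
  have h1 : P.map (Int.castRingHom ℚ) ∣ N.map (Int.castRingHom ℚ) * V := by
    rw [← e2]; exact hU.mul_right _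
  have h2 := hV.symm.dvd_of_dvd_mul_right h1
  exact eval_dvd ((map_dvd_map _ (Int.castRingHom ℚ).injective_int hP).1 h2)

/-- the sum `S_p(q)` -/
noncomputable def S (p : ℕ) : RatFunc ℚ :=
  ∑ j ∈ range p, qint (2 * ((p : ℤ) - 1) * j - 1) *
    (qpoch q⁻¹ (q ^ (p - 1)) j / qpoch (q ^ (p - 1)) (q ^ (p - 1)) j) ^ (2 * (p - 1)) *
    q ^ (j * (p - 1) ^ 2)

def Nn {R : Type} [CommRing R] (x : R) : R :=
  ∑ j ∈ range 11, (x - x ^ (20 * j)) * (∏ i ∈ range j, (x - (x ^ 10) ^ i)) ^ 20 *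
    (∏ i ∈ Ico j 10, (1 - x ^ 10 * (x ^ 10) ^ i)) ^ 20 * x ^ (80 * j)

def Dd {R : Type} [CommRing R] (x : R) : R :=
  x * (1 - x) * (∏ i ∈ range 10, (1 - x ^ 10 * (x ^ 10) ^ i)) ^ 20

theorem SD : S 11 * Dd q = Nn q := by
  unfold S Nn Dd
  rw [Finset.sum_mul]
  refine Finset.sum_congr rfl fun j hj => ?_
  have hj' : j ≤ 10 := by have := mem_range.1 hj; omega
  have hq := q_ne
  have h1 : 1 - q ≠ 0 := by simpa using one_sub_ne 1 one_ne_zero
  have hB : qpoch (q ^ 10) (q ^ 10) j ≠ 0 := by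
    refine Finset.prod_ne_zero_iff.2 fun i _ => ?_
    rw [← pow_mul, ← pow_add]
    exact one_sub_ne _ (by omega)
  have hA : qpoch q⁻¹ (q ^ 10) j = (∏ i ∈ range j, (q - (q ^ 10) ^ i)) / q ^ j := by
    rw [eq_div_iff (pow_ne_zero _ hq), qpoch]
    have : q ^ j = ∏ _i ∈ range j, q := by simp
    rw [this, ← Finset.prod_mul_distrib]
    refine Finset.prod_congr rfl fun i _ => ?_
    field_simp
  have hI : qint (2 * (((11 : ℕ) : ℤ) - 1) * j - 1) = (q - q ^ (20 * j)) / (q * (1 - q)) := by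
    have : (2 * (((11 : ℕ) : ℤ) - 1) * j - 1) = ((20 * j : ℕ) : ℤ) - 1 := by push_cast; ring
    rw [qint, this, zpow_sub₀ hq, zpow_natCast, zpow_one]
    field_simp
  rw [← Finset.prod_range_mul_prod_Ico _ hj', hI]
  show _ * (qpoch q⁻¹ (q ^ 10) j / qpoch (q ^ 10) (q ^ 10) j) ^ 20 * q ^ (j * 10 ^ 2) *
    (q * (1 - q) * (qpoch (q ^ 10) (q ^ 10) j * _) ^ 20) = _
  have hp : q ^ (j * 10 ^ 2) = q ^ (80 * j) * (q ^ j) ^ 20 := by
    rw [← pow_mul, ← pow_add]; congr 1; ring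
  rw [hA, hp]
  have hj0 : q ^ j ≠ 0 := pow_ne_zero _ hq
  generalize qpoch (q ^ 10) (q ^ 10) j = B at hB ⊢
  generalize (∏ i ∈ range j, (q - (q ^ 10) ^ i)) = A
  generalize (∏ i ∈ Ico j 10, (1 - q ^ 10 * (q ^ 10) ^ i)) = E
  generalize q ^ j = t at hj0 ⊢
  generalize q ^ (20 * j) = u
  generalize q ^ (80 * j) = w
  field_simp

theorem result : ¬ ∀ p : ℕ, p.Prime → 3 < p →
    qcong (cyclotomic p ℚ ^ 5) (S p)
      (algebraMap ℚ[X] (RatFunc ℚ)
        (C ((1 / 6 : ℚ) * (p - 1) * (p - 3) * (2 * p - 3) * (p - 2) ^ 2) * (1 - X) ^ 2 *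
          cyclotomic p ℚ ^ 4)) := by
  intro h
  have h1 := h 11 (by norm_num) (by norm_num)
  have : Fact (Nat.Prime 11) := ⟨by norm_num⟩
  have hc : (1 / 6 : ℚ) * ((11 : ℕ) - 1) * ((11 : ℕ) - 3) * (2 * (11 : ℕ) - 3) * ((11 : ℕ) - 2) ^ 2
      = 20520 := by norm_num
  have hm : (cyclotomic 11 ℤ ^ 5).map (Int.castRingHom ℚ) = cyclotomic 11 ℚ ^ 5 := by
    rw [Polynomial.map_pow, map_cyclotomic]
  rw [hc, ← hm] at h1
  have h2 := dvd_of_qcong ((cyclotomic.monic 11 ℤ).pow 5) h1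
    (Nn X - 20520 * (1 - X) ^ 2 * (∑ i ∈ range 11, X ^ i) ^ 4 * Dd X) (Dd X) (by
      have e1 : aeval q (Dd (X : ℤ[X])) = Dd q := by simp [Dd, map_prod]
      have e2 : aeval q (Nn (X : ℤ[X])) = Nn q := by simp [Nn, map_sum, map_prod]
      have e3 : aeval q (20520 * (1 - X) ^ 2 * (∑ i ∈ range 11, X ^ i) ^ 4 : ℤ[X]) =
          algebraMap ℚ[X] (RatFunc ℚ) (C 20520 * (1 - X) ^ 2 * cyclotomic 11 ℚ ^ 4) := by
        rw [cyclotomic_prime]
        simp [q_eq, map_sum, map_ofNat]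
      rw [map_sub, map_mul (aeval q), e1, e2, e3, sub_mul, SD]) 2
  have e1 : eval 2 (Dd (X : ℤ[X])) = Dd 2 := by simp [Dd, eval_prod]
  have e2 : eval 2 (Nn (X : ℤ[X])) = Nn 2 := by simp [Nn, eval_finsetSum, eval_prod]
  rw [cyclotomic_prime, eval_sub, eval_mul, e1, e2] at h2
  simp only [eval_pow, eval_mul, eval_finsetSum, eval_X, eval_sub, eval_one, eval_ofNat] at h2
  revert h2
  decide +kernel

end Pool.Agent.Results.MP_328b17_nt.Full
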